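import Mathlib
import Pool.Agent.Y696.XL.Up

/-!
# The rank part of the Birch and Swinnerton-Dyer conjecture over cubic extensions

`K` is the field of third roots of unity, `E` is the curve `y² + y = x³` over `ℚ`, and `D` runs
through the squarefree `D = 1` modulo `3` of `𝓞 K` whose norm is not `1` modulo `9`; there are at
least `c X` such `D` of norm at most `X`.  Let `F = K(θ)`, `θ³ = D`, a cyclic cubic extension of `K`.

* `L(E / F, s)` is continued to an entire function for all these `F`.
* If the kernel of the Laplacian of the matrix of the cubic residue symbols of the prime divisors of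
  `D` consists of the constants, then `L(E / F, 1) ≠ 0`, the group `E(F)` is finite (of order `9`
  if `D ≠ -2`), and `3` kills the `3`-primary part of `Ш(E / F)`.
* The conclusion holds for at least the proportion `∏_{i ≥ 0} (1 - 3^{-(2 i + 1)}) - ε` of the
  `D`; the infinite product is `0.6390...`.

The group `Sha` of the library is the group of the continuous cocycles of the absolute Galois group
of `F` with values in the points over an algebraic closure of `F` that are coboundaries at all the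
places, modulo the coboundaries.

Joint work of the seats named in the headers of `Pool/Agent/Y703/CT`, `Pool/Agent/Y703/XK` and of
the files imported by `Pool/Agent/Y696/CTK/Fin.lean` and `Pool/Agent/Y696/CTE/Fin.lean`, and of
helper43.
-/

set_option autoImplicit false

namespace Pool.Agent.Results.MP_f50388_nt.CubicExtensions

open NumberField IsDedekindDomain WeierstrassCurve
open Pool.Agent.TH841.NF.D (Sha)
open scoped Classical

/-- The curve `E : y² + y = x³` over `F`. -/
def curve (F : Type) [Field F] : WeierstrassCurve F := ⟨0, 0, 1, 0, 0⟩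

/-- `D` is squarefree and `1` modulo `3`, and its norm is not `1` modulo `9`. -/
def InClass {K : Type} [Field K] [NumberField K] (D : 𝓞 K) : Prop :=
  (3 : 𝓞 K) ∣ D - 1 ∧ Squarefree D ∧ ¬ (9 : ℤ) ∣ Algebra.norm ℤ D - 1

/-- There is an entire function equal to `L(E / F, s)` for `Re s > 3 / 2`. -/
def HasEntireL (F : Type) [Field F] [NumberField F] : Prop :=
  ∃ Lf : ℂ → ℂ, Differentiable ℂ Lf ∧
    ∀ s : ℂ, 3 / 2 < s.re →
      LSeriesSummable ((fun n : ℤ => (n : ℂ)) ∘ (curve F).LFunction) s ∧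
        Lf s = (curve F).LSeries s

/-- There is an entire function equal to `L(E / F, s)` for `Re s > 3 / 2`, its value at `1` is not
zero, `E(F)` is finite (so both the analytic rank and the rank are `0`), and every element of the
`3`-primary part of `Ш(E / F)` is killed by `3`. -/
def RankZero (F : Type) [Field F] [NumberField F] : Prop :=
  (∃ Lf : ℂ → ℂ, Differentiable ℂ Lf ∧
    (∀ s : ℂ, 3 / 2 < s.re →
      LSeriesSummable ((fun n : ℤ => (n : ℂ)) ∘ (curve F).LFunction) s ∧
        Lf s = (curve F).LSeries s) ∧ Lf 1 ≠ 0) ∧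
  Finite (curve F).toAffine.Point ∧
  ∀ (n : ℕ) (x : Sha (curve F)), 3 ^ n • x = 0 → 3 • x = 0

/-- `D` is the product of the primes `π i`, which are `1` modulo `3`, and the cubic residue symbol
of `π i` modulo `π j` is `ω ^ χ j i`. -/
def IsFactorization {K : Type} [Field K] [NumberField K] (ω D : 𝓞 K) (n : ℕ) (π : Fin n → 𝓞 K)
    (χ : Fin n → Fin n → ZMod 3) : Prop :=
  (∀ i, Prime (π i) ∧ (3 : 𝓞 K) ∣ π i - 1) ∧ D = ∏ i, π i ∧
  ∀ i j, i ≠ j →
    π j ∣ π i ^ (((Algebra.norm ℤ (π j)).natAbs - 1) / 3) - ω ^ (χ j i).val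

/-- The kernel of the Laplacian of `χ` over the field with three elements consists of the
constants. -/
def IsConnected {n : ℕ} (χ : Fin n → Fin n → ZMod 3) : Prop :=
  ∀ v : Fin n → ZMod 3, (∀ j, ∑ i, χ j i * (v i - v j) = 0) → ∀ i j, v i = v j

theorem result (K : Type) [Field K] [NumberField K] [IsCyclotomicExtension {3} ℚ K] :
    (∃ c : ℝ, 0 < c ∧ ∃ X₀ : ℕ, ∀ X : ℕ, X₀ ≤ X →
      c * X ≤ ({D : 𝓞 K | Algebra.norm ℤ D ≤ X ∧ InClass D}.ncard : ℝ)) ∧
    (∀ D : 𝓞 K, InClass D →
      (∃ (F : Type) (_ : Field F) (_ : NumberField F) (_ : Algebra K F) (θ : F),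
        Module.finrank K F = 3 ∧ θ ^ 3 = algebraMap K F D) ∧
      (∃ (ω : 𝓞 K) (n : ℕ) (π : Fin n → 𝓞 K) (χ : Fin n → Fin n → ZMod 3),
        ω ^ 2 + ω + 1 = 0 ∧ IsFactorization ω D n π χ) ∧
      ∀ (F : Type) [Field F] [NumberField F] [Algebra K F] (θ : F),
        Module.finrank K F = 3 → θ ^ 3 = algebraMap K F D → HasEntireL F ∧
        ∀ (ω : 𝓞 K) (n : ℕ) (π : Fin n → 𝓞 K) (χ : Fin n → Fin n → ZMod 3),
          ω ^ 2 + ω + 1 = 0 → IsFactorization ω D n π χ → IsConnected χ →
            RankZero F ∧ (D ≠ -2 → Nat.card (curve F).toAffine.Point = 9)) ∧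
    (∀ ε : ℝ, 0 < ε → ∃ X₀ : ℕ, ∀ X : ℕ, X₀ ≤ X →
      (∏' i : ℕ, (1 - (1 / 3 : ℝ) ^ (2 * i + 1)) - ε) *
        ({D : 𝓞 K | Algebra.norm ℤ D ≤ X ∧ InClass D}.ncard : ℝ) ≤
        ({D : 𝓞 K | Algebra.norm ℤ D ≤ X ∧ InClass D ∧
          ∀ (F : Type) [Field F] [NumberField F] [Algebra K F] (θ : F),
            Module.finrank K F = 3 → θ ^ 3 = algebraMap K F D →
              RankZero F ∧ (D ≠ -2 → Nat.card (curve F).toAffine.Point = 9)}.ncard : ℝ)) ∧
    (0.639 : ℝ) < ∏' i : ℕ, (1 - (1 / 3 : ℝ) ^ (2 * i + 1)) :=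
  Pool.Agent.XL6.finalCE K

end Pool.Agent.Results.MP_f50388_nt.CubicExtensions
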