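import Pool.Agent.Y194.BL.Main
import Pool.Agent.Y18.NF.El

/-!
# Rank growth in cyclic extensions of prime power degree: a bound for the number of layers which
# depends only on the elliptic curve

`E : y² = x³ + a x + b` is an elliptic curve over `ℚ` with `L(E, 1) ≠ 0`, given with its newform. Then
there are an integer `D ≠ 0` and a number `A`, depending only on `E`, with the following property. Let `ℓ` be
**any** prime, `n` **any** exponent and `ψ` **any** Dirichlet character of order `ℓ^n` whose modulus `m` is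
composed of primes `q ∤ 2Δ`. Let `ℚ = K_0 ⊂ K_1 ⊂ ⋯ ⊂ K_n` be the layers of the cyclic extension of degree
`ℓ^n` which belongs to `ψ`, so that `L(E/K_i, s) / L(E/K_{i-1}, s)` is the product of the `L(E, χ, s)` over
the `χ ∈ ⟨ψ⟩` of order `ℓ^i`. Put `v = v_ℓ(D c(m))`, `c(m) = ∏_{q ∣ m} c_q`, where `c_q = a_q - 2` if
`q ∥ m` (for `q² ∣ m` see `cc`). Then (if `c(m) ≠ 0`)

* the sum of `1/φ(ord χ)` over the `χ ∈ ⟨ψ⟩`, `χ ≠ 1`, with `L(E, χ, 1) = 0` is at most `v`;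
* the number of the layers `K_i`, `1 ≤ i ≤ n`, for which `L(E/K_i, s) / L(E/K_{i-1}, s)` vanishes at `s = 1` is at
  most `A v`.

If `m` is admissible for `ℓ` (`ℓ ∤ a_q - 2` for the primes `q ≠ ℓ` dividing `m`, which divide `m` exactly
once; `ℓ² ∣ m` and `ℓ ∤ a_ℓ (a_ℓ - 1)` if `ℓ ∣ m`), then `v = v_ℓ(D)` depends only on `E` and `ℓ`. So in all
the cyclic extensions of degree `ℓ^n`, with arbitrary `n` and an arbitrary number of ramified primes subject to this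
condition, all the layers apart from at most `A v_ℓ(D)` of them satisfy `ord_{s=1} L(E/K_i, s) =
ord_{s=1} L(E/K_{i-1}, s)`, and `rank E(K_i) = rank E(K_{i-1})` by a theorem of Kato, as predicted by the
conjecture of Birch and Swinnerton-Dyer. (By a theorem of Shimura `L(E, χ, 1) = 0` depends only
on the order of `χ ∈ ⟨ψ⟩`, so that the first statement gives the bound `v` for the number of the layers.)

The hypotheses hold for `X_0(11)`, that is `y² = x³ - 13392 x - 1080432`; this case of the theorem is stated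
without hypotheses.

Proof. The group `Γ` of the periods of `f` is finitely generated, and a multiple of every modular symbol lies in
it. There is a homomorphism `Λ` of `Γ` to the integers of a number field which respects all linear relations with
algebraic coefficients and which does not vanish at the symbol of `L(E, 1)`. If
`P(X) = ∑_u Λ{u/m} X^{k(u)}`, `ψ⁻¹(u) = ζ^{k(u)}`, then `P(ζ^j) = 0` if `L(E, ψ^j, 1) = 0` (norm
relations for the imprimitive characters), and `P(1) = c(m) Λ{0}` (Hecke relation). So the product of the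
`1 - ζ^j` over the zeros divides `c(m) Λ{0}` in the ring of all algebraic integers.
-/

set_option autoImplicit false

open Complex UpperHalfPlane MatrixGroups CongruenceSubgroup

namespace Pool.Agent.Results.MP_f50388_nt.LayersUniform

/-- `N_p`: the number of pairs `(x, y) ∈ (ℤ/p)²` with `y² = x³ + a x + b`. -/
noncomputable def pointCount (a b : ℤ) (p : ℕ) : ℕ :=
  Nat.card {q : ZMod p × ZMod p // q.2 ^ 2 = q.1 ^ 3 + (a : ZMod p) * q.1 + (b : ZMod p)}

/-- `p` is a prime not dividing `2 Δ`, `Δ = -4 a³ - 27 b²`. -/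
def GoodPrime (a b : ℤ) (p : ℕ) : Prop :=
  p.Prime ∧ ¬ ((p : ℤ) ∣ 2 * (-4 * a ^ 3 - 27 * b ^ 2))

/-- `a_p = p - N_p` -/
noncomputable def ap (a b : ℤ) (p : ℕ) : ℤ := (p : ℤ) - (pointCount a b p : ℤ)

open Classical in
/-- `L(E, 1) ≠ 0` for `E : y² = x³ + a x + b`: there is an entire function `F` which for `Re s > 3/2` is the
incomplete L-series `∏_{p ∤ 2Δ} (1 - a_p p^{-s} + p^{1-2s})⁻¹` of `E`, and `F(1) ≠ 0`. -/
def AnalyticRankZero (a b : ℤ) : Prop :=
  ∃ F : ℂ → ℂ, (Differentiable ℂ F ∧ ∀ s : ℂ, (3 : ℝ) / 2 < s.re →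
    HasProd (fun p : ℕ => if GoodPrime a b p then
      (1 - ((p : ℂ) - (pointCount a b p : ℂ)) * (p : ℂ) ^ (-s) + (p : ℂ) ^ (1 - 2 * s))⁻¹ else 1)
      (F s)) ∧ F 1 ≠ 0

open Classical in
/-- `F(s) = L(E, χ, s)`: the function `F` is entire and for `Re s > 3/2` it is the incomplete L-series
`∏_{p ∤ 2Δ} (1 - χ(p) a_p p^{-s} + χ(p)² p^{1-2s})⁻¹`. (The omitted Euler factors do not vanish at
`s = 1`.) -/
def IsTwistedL (a b : ℤ) {m : ℕ} (χ : DirichletCharacter ℂ m) (F : ℂ → ℂ) : Prop :=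
  Differentiable ℂ F ∧ ∀ s : ℂ, (3 : ℝ) / 2 < s.re →
    HasProd (fun p : ℕ => if GoodPrime a b p then
      (1 - χ (p : ZMod m) * ((p : ℂ) - (pointCount a b p : ℂ)) * (p : ℂ) ^ (-s) +
        χ (p : ZMod m) ^ 2 * (p : ℂ) ^ (1 - 2 * s))⁻¹ else 1) (F s)

/-- `L(E, χ, 1) = 0` -/
def Vanishes (a b : ℤ) {m : ℕ} (χ : DirichletCharacter ℂ m) : Prop :=
  ∃ F : ℂ → ℂ, IsTwistedL a b χ F ∧ F 1 = 0

/-- The local factors of the sums of the modular symbols: `1`, `a - 2`, `a (a - 2) - (q - 1)`, and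
`cc (k + 2) = a cc (k + 1) - q cc k` for `k ≥ 1`. -/
def cc (a q : ℤ) : ℕ → ℤ
  | 0 => 1
  | 1 => a - 2
  | (k + 2) => a * cc a q (k + 1) - (if k = 0 then q - 1 else q) * cc a q k

/-- `c(m) = ∏_{q ∣ m} cc a_q q v_q(m)`; if `m` is squarefree, this is the product of the `a_q - 2`. -/
noncomputable def c (a b : ℤ) (m : ℕ) : ℤ :=
  ∏ q ∈ m.primeFactors, cc (ap a b q) q (m.factorization q)

/-- `m` is admissible for `ℓ`: the primes `q ≠ ℓ` dividing `m` divide it exactly once, and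
`ℓ ∤ a_q - 2`; if `ℓ ∣ m`, then `ℓ² ∣ m`, `ℓ ∤ a_ℓ` and `ℓ ∤ a_ℓ - 1`. -/
def Admissible (a b : ℤ) (l m : ℕ) : Prop :=
  ∀ q : ℕ, q.Prime → q ∣ m → (q ≠ l → ¬ q ^ 2 ∣ m ∧ ¬ (l : ℤ) ∣ ap a b q - 2) ∧
    (q = l → l ^ 2 ∣ m ∧ ¬ (l : ℤ) ∣ ap a b l ∧ ¬ (l : ℤ) ∣ ap a b l - 1)

open Classical in
/-- The sum of `1/φ(ord ψ^j)` over the `1 ≤ j < ℓ^n` with `L(E, ψ^j, 1) = 0`, for a `ψ` of order `ℓ^n`. -/
noncomputable def weight (a b : ℤ) (l n : ℕ) {m : ℕ} (ψ : DirichletCharacter ℂ m) : ℚ :=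
  ∑ j ∈ (Finset.Ico 1 (l ^ n)).filter (fun j => Vanishes a b (ψ ^ j)),
    (1 : ℚ) / Nat.totient (orderOf (ψ ^ j))

open Classical in
/-- The number of the `1 ≤ i ≤ n` for which `L(E, χ, 1) = 0` for some power `χ` of `ψ` of order `ℓ^i`. -/
noncomputable def layers (a b : ℤ) (l n : ℕ) {m : ℕ} (ψ : DirichletCharacter ℂ m) : ℕ :=
  ((Finset.Icc 1 n).filter (fun i => ∃ j ∈ Finset.Ico 1 (l ^ n),
    orderOf (ψ ^ j) = l ^ i ∧ Vanishes a b (ψ ^ j))).card

/-- The `n`-th Fourier coefficient of `f`. -/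
noncomputable def coef {N : ℕ} (f : CuspForm (Gamma0 N : Subgroup (GL (Fin 2) ℝ)) 2) (n : ℕ) : ℂ :=
  (qExpansion 1 f).coeff n

/-- `f ∈ S_2(Γ₀(N))` is the newform of the elliptic curve `E : y² = x³ + a x + b`, with its standard
properties: the Fourier coefficients `c(n)` of `f` are real with `c(1) = 1`, they satisfy the Hecke
relations `c(mn) = c(m) c(n)` for coprime `m`, `n` and `c(p^(j+2)) = c(p) c(p^(j+1)) - p c(p^j)`
(without the last term if `p ∣ N`) and the bounds `|c(p)| ≤ 2√p` for `p ∤ N`, `|c(p)| ≤ 1` for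
`p ∣ N`; `f` is an eigenfunction of the Fricke involution: `f(-1/(Nτ)) = -w N τ² f(τ)` with `w = ±1`;
for all primes `p ∤ 2Δ` one has `p ∤ N` and `c(p) = a_p(E)`.  (Every elliptic curve over `ℚ` has such a
form by the modularity theorem.) -/
structure IsFormOf (a b : ℤ) (N : ℕ) (f : CuspForm (Gamma0 N : Subgroup (GL (Fin 2) ℝ)) 2) :
    Prop where
  one : coef f 1 = 1
  real : ∀ n, (coef f n).im = 0
  mul : ∀ m n : ℕ, Nat.Coprime m n → coef f (m * n) = coef f m * coef f n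
  pow : ∀ p j : ℕ, p.Prime → coef f (p ^ (j + 2)) = coef f p * coef f (p ^ (j + 1)) -
      (if p ∣ N then 0 else (p : ℂ) * coef f (p ^ j))
  good : ∀ p : ℕ, p.Prime → ¬ p ∣ N → ‖coef f p‖ ≤ 2 * Real.sqrt p
  bad : ∀ p : ℕ, p.Prime → p ∣ N → ‖coef f p‖ ≤ 1
  fricke : ∃ w : ℝ, (w = 1 ∨ w = -1) ∧ ∀ τ τ' : ℍ, (τ' : ℂ) * ((N : ℂ) * (τ : ℂ)) = -1 →
    f τ' = -(w : ℂ) * (N : ℂ) * (τ : ℂ) ^ 2 * f τ
  points : ∀ p : ℕ, GoodPrime a b p → ¬ p ∣ N ∧ coef f p = (p : ℂ) - (pointCount a b p : ℂ)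

lemma cc_eq (a q : ℤ) (k : ℕ) : cc a q k = Pool.Agent.Y194.BL.cc a q k := by
  induction k using Nat.twoStepInduction with
  | zero => rfl
  | one => rfl
  | more k ih1 ih2 =>
    show a * cc a q (k + 1) - (if k = 0 then q - 1 else q) * cc a q k =
      a * Pool.Agent.Y194.BL.cc a q (k + 1) -
        (if k = 0 then q - 1 else q) * Pool.Agent.Y194.BL.cc a q k
    rw [ih1, ih2]

lemma c_eq (a b : ℤ) (m : ℕ) :
    c a b m = Pool.Agent.Y194.BL.cM (Pool.Agent.Y194.BL.ap a b) m := by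
  unfold c Pool.Agent.Y194.BL.cM
  exact Finset.prod_congr rfl fun q _ => cc_eq _ _ _

/-- For all Dirichlet characters `χ` whose modulus is composed of primes `q ∤ 2Δ` the entire function
`L(E, χ, s)` exists and is unique. -/
def Continues (a b : ℤ) : Prop :=
  ∀ m : ℕ, m ≠ 0 → (∀ q : ℕ, q.Prime → q ∣ m → GoodPrime a b q) →
    ∀ χ : DirichletCharacter ℂ m, ∃! F : ℂ → ℂ, IsTwistedL a b χ F

/-- There are an integer `D ≠ 0` and a number `A` such that for all moduli `m` composed of primes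
`q ∤ 2Δ`, all primes `ℓ`, all `n` and all Dirichlet characters `ψ` modulo `m` of order `ℓ^n`: if `c(m) ≠ 0`
then `∑ 1/φ(ord χ) ≤ v_ℓ(D c(m))` for the sum over the `1 ≠ χ ∈ ⟨ψ⟩` with `L(E, χ, 1) = 0`, and
`L(E, χ, 1) = 0` for some `χ ∈ ⟨ψ⟩` of order `ℓ^i` for at most `A v_ℓ(D c(m))` numbers `1 ≤ i ≤ n`. If `m` is
admissible for `ℓ`, then `c(m) ≠ 0` and `v_ℓ(D c(m)) = v_ℓ(D)`. -/
def LayerBound (a b : ℤ) : Prop :=
  ∃ (D : ℤ) (A : ℕ), D ≠ 0 ∧
    ∀ m : ℕ, m ≠ 0 → (∀ q : ℕ, q.Prime → q ∣ m → GoodPrime a b q) →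
      ∀ l : ℕ, l.Prime → ∀ (n : ℕ) (ψ : DirichletCharacter ℂ m), orderOf ψ = l ^ n →
        (c a b m ≠ 0 → weight a b l n ψ ≤ padicValInt l (D * c a b m) ∧
          layers a b l n ψ ≤ A * padicValInt l (D * c a b m)) ∧
        (Admissible a b l m →
          c a b m ≠ 0 ∧ padicValInt l (D * c a b m) = padicValInt l D)

theorem general (a b : ℤ) (hΔ : 4 * a ^ 3 + 27 * b ^ 2 ≠ 0) (N : ℕ) (hN : N ≠ 0)
    (f : CuspForm (Gamma0 N : Subgroup (GL (Fin 2) ℝ)) 2) (hf : IsFormOf a b N f)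
    (h0 : AnalyticRankZero a b) : Continues a b ∧ LayerBound a b := by
  classical
  have : NeZero N := ⟨hN⟩
  have hf' : Pool.Agent.Y18.BSD.IsFormOf a b N f :=
    ⟨hf.one, hf.real, hf.mul, hf.pow, hf.good, hf.bad, hf.fricke, hf.points⟩
  constructor
  · intro m hm hg χ
    have : NeZero m := ⟨hm⟩
    obtain ⟨F, hF, -⟩ := Pool.Agent.Y194.BL.exists_tw hΔ hf' m
      (Pool.Agent.Y194.BL.coprime_of_good hf' hg) χ
    exact ⟨F, hF, fun G hG => Pool.Agent.Y194.BL.isTw_unique hG hF⟩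
  · obtain ⟨D, A, hD, h⟩ := Pool.Agent.Y194.BL.main hΔ hf' h0
    refine ⟨D, A, hD, fun m hm hg l hl n ψ hψ => ⟨fun hc => ?_, fun hadm => ?_⟩⟩
    · rw [c_eq] at hc ⊢
      obtain ⟨h1, h2⟩ := h m hm hg hc l hl n ψ hψ
      refine ⟨h1 _ (Finset.filter_subset _ _) (fun j hj => (Finset.mem_filter.1 hj).2), h2 _ ?_⟩
      intro i hi
      obtain ⟨j, hj, h3, h4⟩ := (Finset.mem_filter.1 hi).2
      exact ⟨j, hj, h3, h4⟩
    · rw [c_eq]
      exact Pool.Agent.Y194.BL.val_of_adm hl hm hadm D hD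

/-- **Theorem.** (1) Let `E : y² = x³ + a x + b` be an elliptic curve over `ℚ` with newform `f` and
`L(E, 1) ≠ 0`. For all Dirichlet characters `χ` whose modulus is composed of primes `q ∤ 2Δ` the entire function
`L(E, χ, s)` exists (and is unique). There are an integer `D ≠ 0` and `A` such that for all moduli `m`
composed of primes `q ∤ 2Δ`, all primes `ℓ`, all `n` and all Dirichlet characters `ψ` modulo `m` of order `ℓ^n`:
if `c(m) ≠ 0` then `∑ 1/φ(ord χ) ≤ v_ℓ(D c(m))` for the sum over the `1 ≠ χ ∈ ⟨ψ⟩` with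
`L(E, χ, 1) = 0`, and `L(E, χ, 1) = 0` for some `χ ∈ ⟨ψ⟩` of order `ℓ^i` for at most `A v_ℓ(D c(m))`
numbers `1 ≤ i ≤ n`. If `m` is admissible for `ℓ`, then `c(m) ≠ 0` and `v_ℓ(D c(m)) = v_ℓ(D)`.

(2) All this holds, without any hypothesis, for `X_0(11) : y² = x³ - 13392 x - 1080432`. -/
theorem result :
    (∀ a b : ℤ, 4 * a ^ 3 + 27 * b ^ 2 ≠ 0 → ∀ N : ℕ, N ≠ 0 →
      ∀ f : CuspForm (Gamma0 N : Subgroup (GL (Fin 2) ℝ)) 2, IsFormOf a b N f →
        AnalyticRankZero a b → Continues a b ∧ LayerBound a b) ∧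
    (Continues (-13392) (-1080432) ∧ LayerBound (-13392) (-1080432)) := by
  refine ⟨general, ?_⟩
  have h := Pool.Agent.Y18.BSD.Eleven.isFormOf
  exact general (-13392) (-1080432) (by norm_num) 11 (by norm_num) _
    ⟨h.one, h.real, h.mul, h.pow, h.good, h.bad, h.fricke, h.points⟩ Pool.Agent.Y18.NF.rankZero11

end Pool.Agent.Results.MP_f50388_nt.LayersUniform
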