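import Pool.Agent.Y698.Ug
import Pool.Agent.Y698.Fi

/-!
# The 2-part of the refined conjecture for the quadratic twists of `X_0(49)` over the subfields of
# degree `2 ^ n` of `ℚ(ζ_r)`

`r` is a prime number with `r ≡ 1 mod 4` which is inert in `ℚ(√-7)`, and `K` is the subfield of degree
`2 ^ n` of `ℚ(ζ_r)`, for any `n ≥ 1` such that `2 ^ n` divides `r - 1`; `K` is totally real or totally
complex. `D` is a product of different primes `q ≡ 1 mod 4`, `q ≠ r`, which are inert in `ℚ(√-7)` and
whose Frobenius elements in `Gal(K/ℚ)` have order one or two (`q²` is a `2 ^ n`-th power modulo `r`);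
`D = 1` is allowed. `E_D` is the quadratic twist by `D` of `X_0(49) : y² + x y = x³ - x² - 2 x - 1`.

Theorem: `L(E_D/K, s)` is entire and does not vanish at `s = 1`; the order of `E_D(K)` is twice an odd
number; the 2-primary part of the Tate-Shafarevich group `Ш(E_D/K)` is zero; the equation of `E_D` is
minimal at all finite places of `K`, the product of the Tamagawa numbers is `2 ^ (1 + k 2 ^ n)`, where
`k` is the number of prime factors of `D`; and the formula for `L(E_D/K, 1)` holds up to a 2-adic unit: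
the quotient of `L(E_D/K, 1)` and `#Ш(E_D/K)[2^∞] Ω ∏ c_v / (√|Disc K| #E_D(K)²)` is an algebraic
number which is a unit at all the primes above two.

Proof.
* Analytic side. `L(E_D/K, s)` is the product of the `L(ψ ε (χ ∘ N), s)`, `ψ` the Hecke character of
  `X_0(49)`, `ε` the quadratic character of `D` and `χ` the characters of `Gal(K/ℚ)` (theorem of Deuring
  at all the primes, proved with the Kronecker congruence, and the local factors of Mathlib over `K`).
  The values at `s = 1` are expressed by `℘`-functions at division points; the sum over the divisors of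
  `D` of the values, with Euler factors removed, is divisible by a known power of two, and modulo the
  primes above two all `χ` are trivial: an induction on the number of primes gives the valuations.
* Periods. The integrals over `E(ℝ)` and `E(ℂ)` are computed with `℘`, as the least real period and
  twice the area of a fundamental domain of the lattice.
* Algebraic side. A `2`-descent over `K(√-7)`, for points and for continuous cocycles that are locally
  trivial at all places: the cyclic group of order `2 ^ n` acts on the classes, which reduces it to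
  elements of `ℚ(√-7)`; the place above `r` is totally ramified, the place above `7` is inert, and at
  the places above `D` all rational numbers prime to `D` are squares.
  The Tamagawa numbers are `2` above `7` and `2 ^ f` above `D`, `f` the residue degree.
-/

set_option autoImplicit false

open NumberField NumberField.InfinitePlace IsDedekindDomain WeierstrassCurve MeasureTheory

namespace Pool.Agent.Results.MP_f50388_nt.TwistsTwoPart

open Pool.Agent.TH841.NF.D (Sha)
open Pool.Agent.TH841.SH.D (Pt)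

/-- For `D ≡ 1 mod 4` the quadratic twist by `D` of the elliptic curve
`X_0(49) : y² + x y = x³ - x² - 2 x - 1`:
the curve `y² + x y = x³ - (3 D + 1) / 4 x² - 2 D² x - D³`. -/
def twist (D : ℕ) : WeierstrassCurve ℤ := ⟨1, -((3 * D + 1) / 4), 0, -2 * D ^ 2, -D ^ 3⟩

/-- The curve given by the equation of `W` over the ring `R`. -/
abbrev base (W : WeierstrassCurve ℤ) (R : Type) [CommRing R] : WeierstrassCurve R :=
  W.map (Int.castRingHom R)

section

variable {K : Type} [Field K] [NumberField K]

/-- The equation is minimal at the finite place `v` of `K`: no change of variables over `K` that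
keeps the coefficients integral at `v` decreases the order of the discriminant. -/
def MinimalAt (W : WeierstrassCurve K) (v : HeightOneSpectrum (𝓞 K)) : Prop :=
  ∀ C : VariableChange K, v.valuation K (C • W).a₁ ≤ 1 → v.valuation K (C • W).a₂ ≤ 1 →
    v.valuation K (C • W).a₃ ≤ 1 → v.valuation K (C • W).a₄ ≤ 1 → v.valuation K (C • W).a₆ ≤ 1 →
    v.valuation K (C • W).Δ ≤ v.valuation K W.Δ

/-- `W⁰(K_v)`, the group of the points of `W` over the completion `K_v` with nonsingular reduction:
the point at infinity and the points `(x, y)` where `x` is not integral, or one of the partial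
derivatives of `y² + a₁ x y + a₃ y - x³ - a₂ x² - a₄ x - a₆` is a unit at `(x, y)`.
Here `Pt W K_v` is the group of the points of `W` over `K_v`. -/
noncomputable def nonsing (W : WeierstrassCurve K) (v : HeightOneSpectrum (𝓞 K)) :
    AddSubgroup (Pt W (v.adicCompletion K)) :=
  AddSubgroup.closure {P | ∀ x y h, P = Affine.Point.some x y h →
    1 < Valued.v x ∨
    Valued.v ((W.baseChange (v.adicCompletion K)).a₁ * y -
      (3 * x ^ 2 + 2 * (W.baseChange (v.adicCompletion K)).a₂ * x +
        (W.baseChange (v.adicCompletion K)).a₄)) = 1 ∨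
    Valued.v (2 * y + (W.baseChange (v.adicCompletion K)).a₁ * x +
      (W.baseChange (v.adicCompletion K)).a₃) = 1}

/-- The Tamagawa number `c_v = [W(K_v) : W⁰(K_v)]` of a minimal equation. -/
noncomputable def c (W : WeierstrassCurve K) (v : HeightOneSpectrum (𝓞 K)) : ℕ :=
  (nonsing W v).index

/-- The product of the Tamagawa numbers. -/
noncomputable def Tam (W : WeierstrassCurve K) : ℕ := ∏ᶠ v : HeightOneSpectrum (𝓞 K), c W v

/-- The 2-primary part of the Tate-Shafarevich group over `K`. -/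
def Sha2 (W : WeierstrassCurve K) : Set (Sha W) := {x | ∃ n : ℕ, 2 ^ n • x = 0}

end

/-- `4 x³ + b₂ x² + 2 b₄ x + b₆ = (2 y + a₁ x + a₃)²`. -/
def cubic (W : WeierstrassCurve ℤ) {R : Type} [CommRing R] (x : R) : R :=
  4 * x ^ 3 + W.b₂ * x ^ 2 + 2 * W.b₄ * x + W.b₆

/-- `∫_{W(ℝ)} |ω|` with `ω = dx / (2 y + a₁ x + a₃)`, as an integral over `x`: two real points lie
over each `x` with `cubic x > 0`. -/
noncomputable def realPeriod (W : WeierstrassCurve ℤ) : ℝ :=
  2 * ∫ x in {x : ℝ | 0 < cubic W x}, 1 / √(cubic W x)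

/-- `2 ∫_{W(ℂ)} |ω ∧ ω̄|`, where `|ω ∧ ω̄| = du dv` in a local parameter `z = u + i v` with
`dz = ω`, as an integral over `x`: two points lie over a general `x`, and `|ω ∧ ω̄|` is the area
element of the plane of `x` divided by `|cubic x|`. -/
noncomputable def complexPeriod (W : WeierstrassCurve ℤ) : ℝ := 2 * (2 * ∫ x : ℂ, 1 / ‖cubic W x‖)

/-- `Ω_{W/K}`. -/
noncomputable def Omega (K : Type) [Field K] [NumberField K] (W : WeierstrassCurve ℤ) : ℝ :=
  realPeriod W ^ nrRealPlaces K * complexPeriod W ^ nrComplexPlaces K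

/-- The right side of the formula for a curve of rank zero with an equation that is minimal at all
finite places, with the 2-primary part of the Tate-Shafarevich group:
`#Ш(W/K)[2^∞] Ω_{W/K} ∏ c_v / (√|Disc K| #W(K)²)`. -/
noncomputable def rhs (K : Type) [Field K] [NumberField K] (W : WeierstrassCurve ℤ) : ℝ :=
  (Nat.card (Sha2 (base W K)) : ℝ) * Omega K W * (Tam (base W K) : ℝ) /
    (√|(discr K : ℝ)| * (Nat.card (base W K).toAffine.Point : ℝ) ^ 2)

section proof

open Pool.Agent.Y698

lemma base_eq {D j : ℕ} (hj : D = 1 + 4 * j) (K : Type) [Field K] : base (twist D) K = AX K j :=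
  twZ_map hj K

lemma cubic_eq {D j : ℕ} (hj : D = 1 + 4 * j) {R : Type} [CommRing R] (x : R) :
    cubic (twist D) x = psD (1 + 4 * j) x := by
  have h1 : (3 * (D : ℤ) + 1) / 4 = 1 + 3 * j := by
    rw [hj]
    push_cast
    omega
  unfold cubic twist WeierstrassCurve.b₂ WeierstrassCurve.b₄ WeierstrassCurve.b₆ psD
  simp only
  rw [h1, hj]
  push_cast
  ring

lemma real_eq {D j : ℕ} (hj : D = 1 + 4 * j) : realPeriod (twist D) =
    ∫ x in {x : ℝ | 0 < psD (1 + 4 * j) x}, 2 / Real.sqrt (psD (1 + 4 * j) x) := by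
  unfold realPeriod
  simp only [cubic_eq hj]
  rw [← integral_const_mul]
  congr 1
  funext x
  ring

lemma cplx_eq {D j : ℕ} (hj : D = 1 + 4 * j) : complexPeriod (twist D) =
    ∫ x : ℂ, 4 / ‖psD (1 + 4 * j) x‖ := by
  unfold complexPeriod
  simp only [cubic_eq hj]
  rw [← mul_assoc, ← integral_const_mul]
  congr 1
  funext x
  ring

end proof

/-- **The 2-part of the refined conjecture for the quadratic twists of `X_0(49)` over `K`.** -/
theorem result {r n : ℕ} (hr : r.Prime) (h4 : r % 4 = 1) (h7 : ¬ IsSquare (-7 : ZMod r))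
    (hn : 1 ≤ n) (K : IntermediateField ℚ (CyclotomicField r ℚ))
    (hK : Module.finrank ℚ K = 2 ^ n)
    (S : Finset ℕ) (hS : ∀ q ∈ S, q.Prime ∧ q % 4 = 1 ∧ ¬ IsSquare (-7 : ZMod q) ∧ q ≠ r ∧
      ∃ y : ZMod r, y ^ 2 ^ n = (q : ZMod r) ^ 2)
    (D : ℕ) (hD : D = ∏ q ∈ S, q) :
    (∀ v : HeightOneSpectrum (𝓞 K), MinimalAt (base (twist D) K) v) ∧
    (∃ t : ℕ, Odd t ∧ Nat.card (base (twist D) K).toAffine.Point = 2 * t) ∧
    Tam (base (twist D) K) = 2 ^ (1 + S.card * 2 ^ n) ∧
    Sha2 (base (twist D) K) = {0} ∧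
    ∃ Λ : ℂ → ℂ, Differentiable ℂ Λ ∧
      (∀ s : ℂ, 2 < s.re → Λ s = (base (twist D) K).LSeries s) ∧ Λ 1 ≠ 0 ∧
      ∃ m : ℤ, Odd m ∧ IsIntegral ℤ (m * (Λ 1 / rhs K (twist D))) ∧
        IsIntegral ℤ (m * (rhs K (twist D) / Λ 1)) := by
  have : Fact r.Prime := ⟨hr⟩
  have hM : IsCyclotomicExtension {r} ℚ (CyclotomicField r ℚ) := Pool.Agent.Y698.cyc_inst r
  obtain ⟨k, rfl⟩ : ∃ k, n = k + 1 := ⟨n - 1, by omega⟩
  have hK' : Module.finrank ℚ K = 2 ^ (k + 1) := hK
  have hS' : ∀ q ∈ S, Pool.Agent.Y698.Inq q ∧ q ≠ r ∧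
      ∃ y : ZMod r, y ^ 2 ^ (k + 1) = (q : ZMod r) ^ 2 :=
    fun q hq => ⟨⟨(hS q hq).1, (hS q hq).2.1, (hS q hq).2.2.1⟩, (hS q hq).2.2.2.1,
      (hS q hq).2.2.2.2⟩
  have hm4 := Pool.Agent.Y698.prod_mod_four (S := S) fun q hq => (hS q hq).2.1
  obtain ⟨j, hj⟩ : ∃ j, ∏ q ∈ S, q = 1 + 4 * j := ⟨(∏ q ∈ S, q) / 4, by omega⟩
  have hDj : D = 1 + 4 * j := by rw [hD, hj]
  have hsha : Sha2 (Pool.Agent.Y698.AX K j) = {0} := by
    apply Set.eq_singleton_iff_unique_mem.2
    refine ⟨⟨0, smul_zero _⟩, ?_⟩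
    rintro x ⟨l, hl⟩
    exact Pool.Agent.Y698.sha_two_powD (CyclotomicField r ℚ) K h4 h7 hK' hS' hj x l hl
  obtain ⟨Λ, h1, h2, h3, m, hm, i1, i2⟩ :=
    Pool.Agent.Y698.level_four (CyclotomicField r ℚ) K h4 h7 hK' hS' hj
  have hrhs : (Λ 1 / (rhs K (twist D) : ℂ)) = Pool.Agent.Y698.quoD K j (Λ 1) := by
    unfold rhs Omega
    rw [base_eq hDj, hsha, real_eq hDj, cplx_eq hDj, Nat.card_unique]
    unfold Pool.Agent.Y698.quoD
    have hT : Tam (Pool.Agent.Y698.AX K j) =
      ∏ᶠ v, Pool.Agent.Y698.tam (Pool.Agent.Y698.AX K j) v := rfl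
    rw [hT]
    generalize (∏ᶠ v, Pool.Agent.Y698.tam (Pool.Agent.Y698.AX K j) v : ℕ) = t
    push_cast
    rw [one_mul, div_div_eq_mul_div, ← mul_assoc]
  have hinv : (rhs K (twist D) : ℂ) / Λ 1 = (Pool.Agent.Y698.quoD K j (Λ 1))⁻¹ := by
    rw [← hrhs, inv_div]
  rw [← hrhs] at i1
  rw [← hinv] at i2
  rw [base_eq hDj]
  exact ⟨fun v => Pool.Agent.Y698.minimal_D (CyclotomicField r ℚ) K h7
      (fun q hq => ⟨(hS' q hq).1, (hS' q hq).2.1⟩) hj v,
    Pool.Agent.Y698.tors_cardD (CyclotomicField r ℚ) K h4 h7 hK' hS' hj,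
    Pool.Agent.Y698.tam_prodD (CyclotomicField r ℚ) K h4 h7 hK' hS' hj,
    hsha, Λ, h1, h2, h3, m, hm, i1, i2⟩

end Pool.Agent.Results.MP_f50388_nt.TwistsTwoPart
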